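import Pool.Agent.BSH.Stmts

/-!
BSH, row HIT: the generator hits products of cheap polynomials.
-/

set_option autoImplicit false

namespace Pool.Agent.BSH.H41

open MvPolynomial Pool.Agent.Helper78_ACIT

theorem hit (hrec : RecStmt) (hnat : NatStmt) : HitStmt := by
  intro E _ _ l σ ν L hν hL hne
  have h1 : (aeval (gen (l + 1) σ ν X) L.prod : MvPolynomial ℕ E) ≠ 0 := by
    rw [map_list_prod]
    apply List.prod_ne_zero
    intro h0
    rw [List.mem_map] at h0
    obtain ⟨F, hF, hF0⟩ := h0
    exact hrec E l σ ν F hν (hL F hF) (fun h => hne (List.prod_eq_zero (h ▸ hF))) hF0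
  obtain ⟨x, hx⟩ : ∃ x : ℕ → E,
      eval x (aeval (gen (l + 1) σ ν X) L.prod : MvPolynomial ℕ E) ≠ 0 := by
    by_contra hcon
    push Not at hcon
    apply h1
    apply MvPolynomial.funext
    intro y
    rw [hcon y, map_zero]
  refine ⟨fun j => x j, ?_⟩
  have h2 : eval x (aeval (gen (l + 1) σ ν X) L.prod : MvPolynomial ℕ E)
      = eval (gen (l + 1) σ ν x) L.prod := by
    have h3 : ∀ P : MvPolynomial ℕ E, eval x (aeval (gen (l + 1) σ ν X) P : MvPolynomial ℕ E)
        = eval (gen (l + 1) σ ν x) P := by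
      intro P
      have h4 : (eval x).comp (aeval (gen (l + 1) σ ν X) :
          MvPolynomial ℕ E →ₐ[E] MvPolynomial ℕ E).toRingHom = eval (gen (l + 1) σ ν x) := by
        apply MvPolynomial.ringHom_ext
        · intro c
          simp
        · intro i
          have h5 := hnat.1 (MvPolynomial ℕ E) E (eval x) (l + 1) σ ν X i
          simp only [eval_X] at h5
          simpa using h5
      exact RingHom.congr_fun h4 P
    exact h3 _
  have h6 : gen (l + 1) σ ν (ext (fun j : Fin (3 ^ (l + 1) * ν) => x j)) = gen (l + 1) σ ν x := by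
    funext i
    by_cases hi : i < 4 ^ (l + 1) * ν
    · refine hnat.2.1 E (l + 1) σ ν _ _ (fun m hm => ?_) i hi
      unfold ext
      rw [dif_pos hm]
    · push Not at hi
      rw [hnat.2.2 E l σ ν _ i hi, hnat.2.2 E l σ ν _ i hi]
  rw [h6, ← h2]
  exact hx

end Pool.Agent.BSH.H41
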